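import Mathlib

/-! Definitions for `Pool.Agent.Results.MP_491344_nt.AffineOperations`. -/

set_option autoImplicit false

namespace Pool.Agent.J4H86.AF

open Filter

/-- The number of ordered pairs of elements of `A` with sum `n`. -/
noncomputable def rep (A : Set ℕ) (n : ℕ) : ℕ :=
  Nat.card {p : ℕ × ℕ // p.1 ∈ A ∧ p.2 ∈ A ∧ p.1 + p.2 = n}

/-- The number of elements of `A` in `[1, N]`. -/
noncomputable def count (A : Set ℕ) (N : ℕ) : ℕ := (A ∩ Set.Icc 1 N).ncard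

/-- `A` has an unbounded representation function. -/
def Unb (A : Set ℕ) : Prop := ∀ B : ℕ, ∃ n, B ≤ rep A n

/-- `rep A n ≥ c n ^ δ` for some `c > 0` and infinitely many `n`. -/
def Growth (A : Set ℕ) (δ : ℝ) : Prop :=
  ∃ c : ℝ, 0 < c ∧ ∀ M : ℕ, ∃ n ≥ M, c * (n : ℝ) ^ δ ≤ rep A n

/-- `A` has at least `c √N / g(N)` elements in `[1, N]` for infinitely many `N`, and the set `E`
has `o(√N / g(N))` elements in `[1, N]`. -/
def DenseUpTo (g : ℕ → ℝ) (A E : Set ℕ) : Prop :=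
  (∃ c : ℝ, 0 < c ∧ ∃ᶠ N : ℕ in atTop, c * (Real.sqrt N / g N) ≤ count A N) ∧
    ∀ ε : ℝ, 0 < ε → ∀ᶠ N : ℕ in atTop, (count E N : ℝ) ≤ ε * (Real.sqrt N / g N)

open Classical in
/-- The elements `x` of `A` for which less than `s` of the numbers `q x + c`, `c ∈ C`, belong to
`A`. -/
noncomputable def Poor (q : ℕ) (C : Finset ℕ) (s : ℕ) (A : Set ℕ) : Set ℕ :=
  {x | x ∈ A ∧ (C.filter fun c => q * x + c ∈ A).card < s}

end Pool.Agent.J4H86.AF
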