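import Pool.Agent.J4H86.AF.Defs

/-! Proofs for `Pool.Agent.Results.MP_491344_nt.AffineOperations`. -/

set_option autoImplicit false

namespace Pool.Agent.J4H86.AF

open Finset Filter
open scoped Pointwise

/-! ## Expansions -/

/-- the numbers `∑_{j < k} c_j q ^ j` with digits `c_j ∈ C` -/
def V (q : ℕ) (C : Finset ℕ) : ℕ → Finset ℕ
  | 0 => {0}
  | k + 1 => (V q C k ×ˢ C).image fun p => q * p.1 + p.2

theorem mem_V_succ {q : ℕ} {C : Finset ℕ} {k x : ℕ} :
    x ∈ V q C (k + 1) ↔ ∃ v ∈ V q C k, ∃ c ∈ C, q * v + c = x := by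
  simp only [V, mem_image, mem_product, Prod.exists]
  constructor
  · rintro ⟨v, c, ⟨hv, hc⟩, h⟩
    exact ⟨v, hv, c, hc, h⟩
  · rintro ⟨v, hv, c, hc, h⟩
    exact ⟨v, c, ⟨hv, hc⟩, h⟩

/-- the digits of an expansion are determined by its value -/
def Uniq (q : ℕ) (C : Finset ℕ) : Prop :=
  ∀ k, ∀ v ∈ V q C k, ∀ v' ∈ V q C k, ∀ c ∈ C, ∀ c' ∈ C, q * v + c = q * v' + c' →
    v = v' ∧ c = c'

theorem uniq_of_mod {q : ℕ} (hq : 1 ≤ q) {C : Finset ℕ}
    (h : ∀ c ∈ C, ∀ c' ∈ C, c % q = c' % q → c = c') : Uniq q C := by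
  intro k v _ v' _ c hc c' hc' he
  have h1 : c = c' := by
    apply h c hc c' hc'
    have := congrArg (· % q) he
    simpa [Nat.add_mod] using this
  refine ⟨?_, h1⟩
  subst h1
  have : q * v = q * v' := by omega
  exact Nat.eq_of_mul_eq_mul_left hq this

theorem uniq_pair {q c₁ c₂ : ℕ} (hq : 2 ≤ q) (hc : c₁ ≠ c₂) : Uniq q {c₁, c₂} := by
  -- all expansions of the same length are congruent modulo `c₂ - c₁`
  have key : ∀ k, ∀ v ∈ V q {c₁, c₂} k, ∀ v' ∈ V q {c₁, c₂} k,
      ((c₂ : ℤ) - c₁) ∣ (v : ℤ) - v' := by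
    intro k
    induction k with
    | zero =>
      intro v hv v' hv'
      simp only [V, mem_singleton] at hv hv'
      subst hv hv'
      simp
    | succ k ih =>
      intro x hx x' hx'
      obtain ⟨v, hv, c, hcC, rfl⟩ := mem_V_succ.1 hx
      obtain ⟨v', hv', c', hcC', rfl⟩ := mem_V_succ.1 hx'
      have h1 := ih v hv v' hv'
      have h2 : ((c₂ : ℤ) - c₁) ∣ (c : ℤ) - c' := by
        simp only [mem_insert, mem_singleton] at hcC hcC'
        rcases hcC with rfl | rfl <;> rcases hcC' with rfl | rfl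
        · simp
        · rw [← dvd_neg]; simp
        · simp
        · simp
      have h3 : (((q * v + c : ℕ) : ℤ) - ((q * v' + c' : ℕ) : ℤ))
          = q * ((v : ℤ) - v') + ((c : ℤ) - c') := by push_cast; ring
      rw [h3]
      exact dvd_add (Dvd.dvd.mul_left h1 _) h2
  intro k v hv v' hv' c hcC c' hcC' he
  have hd := key k v hv v' hv'
  have hqz : (2 : ℤ) ≤ q := by exact_mod_cast hq
  have hez : (q : ℤ) * ((v : ℤ) - v') = (c' : ℤ) - c := by
    have : ((q * v + c : ℕ) : ℤ) = ((q * v' + c' : ℕ) : ℤ) := by rw [he]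
    push_cast at this
    linarith
  have hcz : (c₂ : ℤ) - c₁ ≠ 0 := by
    intro h
    apply hc
    have : (c₂ : ℤ) = c₁ := by linarith
    exact_mod_cast this.symm
  obtain ⟨u, hu⟩ := hd
  have hcc : c = c' := by
    by_contra hne
    simp only [mem_insert, mem_singleton] at hcC hcC'
    have hnu : ∀ w : ℤ, (q : ℤ) * w ≠ 1 := by
      intro w hw
      have : (q : ℤ) ∣ 1 := ⟨w, hw.symm⟩
      have := Int.le_of_dvd one_pos this
      omega
    rcases hcC with rfl | rfl <;> rcases hcC' with rfl | rfl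
    · exact hne rfl
    · rw [hu] at hez
      have : ((c' : ℤ) - c) * (q * u) = ((c' : ℤ) - c) * 1 := by linarith
      exact hnu _ (mul_left_cancel₀ hcz this)
    · rw [hu] at hez
      have : ((c : ℤ) - c') * (q * (-u)) = ((c : ℤ) - c') * 1 := by linarith
      exact hnu _ (mul_left_cancel₀ hcz this)
    · exact hne rfl
  refine ⟨?_, hcc⟩
  subst hcc
  have : q * v = q * v' := by omega
  exact Nat.eq_of_mul_eq_mul_left (by omega) this

theorem card_V_add {q : ℕ} {C : Finset ℕ} : ∀ k, (V q C k + V q C k).card ≤ (C + C).card ^ k := by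
  intro k
  induction k with
  | zero => simp [V]
  | succ k ih =>
    have hsub : V q C (k + 1) + V q C (k + 1)
        ⊆ ((V q C k + V q C k) ×ˢ (C + C)).image fun p => q * p.1 + p.2 := by
      intro x hx
      obtain ⟨y, hy, z, hz, rfl⟩ := Finset.mem_add.1 hx
      obtain ⟨v, hv, c, hc, rfl⟩ := mem_V_succ.1 hy
      obtain ⟨v', hv', c', hc', rfl⟩ := mem_V_succ.1 hz
      refine mem_image.2 ⟨(v + v', c + c'), mem_product.2 ⟨Finset.add_mem_add hv hv',
        Finset.add_mem_add hc hc'⟩, ?_⟩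
      show q * (v + v') + (c + c') = _
      ring
    calc (V q C (k + 1) + V q C (k + 1)).card
        ≤ (((V q C k + V q C k) ×ˢ (C + C)).image fun p => q * p.1 + p.2).card :=
          card_le_card hsub
      _ ≤ ((V q C k + V q C k) ×ˢ (C + C)).card := card_image_le
      _ = (V q C k + V q C k).card * (C + C).card := card_product _ _
      _ ≤ (C + C).card ^ k * (C + C).card := Nat.mul_le_mul_right _ ih
      _ = (C + C).card ^ (k + 1) := (pow_succ _ _).symm

theorem V_le {q : ℕ} (hq : 2 ≤ q) {C : Finset ℕ} {M : ℕ} (hM : ∀ c ∈ C, c ≤ M) :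
    ∀ k, ∀ v ∈ V q C k, v + M ≤ M * q ^ k := by
  intro k
  induction k with
  | zero =>
    intro v hv
    simp only [V, mem_singleton] at hv
    subst hv
    simp
  | succ k ih =>
    intro x hx
    obtain ⟨v, hv, c, hc, rfl⟩ := mem_V_succ.1 hx
    have h1 := ih v hv
    have h2 := hM c hc
    calc q * v + c + M ≤ q * v + (M + M) := by omega
      _ ≤ q * v + q * M := by nlinarith
      _ = q * (v + M) := by ring
      _ ≤ q * (M * q ^ k) := Nat.mul_le_mul_left _ h1
      _ = M * q ^ (k + 1) := by ring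

/-! ## Representations from a popular sum -/

theorem rep_finite (A : Set ℕ) (n : ℕ) :
    Finite {p : ℕ × ℕ // p.1 ∈ A ∧ p.2 ∈ A ∧ p.1 + p.2 = n} := by
  have : {p : ℕ × ℕ | p.1 ∈ A ∧ p.2 ∈ A ∧ p.1 + p.2 = n}.Finite := by
    apply Set.Finite.subset (Finset.finite_toSet (antidiagonal n))
    rintro ⟨a, b⟩ h
    have h2 : a + b = n := h.2.2
    simpa using h2
  exact this.to_subtype

theorem card_le_rep {A : Set ℕ} {n : ℕ} (P : Finset (ℕ × ℕ))
    (hP : ∀ p ∈ P, p.1 ∈ A ∧ p.2 ∈ A ∧ p.1 + p.2 = n) : P.card ≤ rep A n := by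
  have := rep_finite A n
  have h1 : Nat.card P ≤ Nat.card {p : ℕ × ℕ // p.1 ∈ A ∧ p.2 ∈ A ∧ p.1 + p.2 = n} := by
    apply Nat.card_le_card_of_injective (fun p : P => ⟨p.1, hP p.1 p.2⟩)
    intro p p' h
    apply Subtype.ext
    have := congrArg Subtype.val h
    exact this
  simpa [rep] using h1

theorem popular {A : Set ℕ} {D W : Finset ℕ} {y t : ℕ} (hD : D.Nonempty)
    (hDA : ∀ v ∈ D, y + v ∈ A) (hW : D + D ⊆ W) (ht : W.card * t ≤ D.card ^ 2) :
    ∃ σ ∈ W, t ≤ rep A (2 * y + σ) := by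
  have hWne : W.Nonempty := by
    obtain ⟨v, hv⟩ := hD
    exact ⟨v + v, hW (Finset.add_mem_add hv hv)⟩
  obtain ⟨σ, hσ, h⟩ := Finset.exists_le_card_fiber_of_mul_le_card_of_maps_to
    (s := D ×ˢ D) (t := W) (f := fun p : ℕ × ℕ => p.1 + p.2) (n := t)
    (by
      intro p hp
      obtain ⟨h1, h2⟩ := mem_product.1 hp
      exact hW (Finset.add_mem_add h1 h2)) hWne
    (by rw [card_product, ← sq]; exact ht)
  refine ⟨σ, hσ, h.trans ?_⟩
  have hinj : Function.Injective fun p : ℕ × ℕ => (y + p.1, y + p.2) := by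
    rintro ⟨a, b⟩ ⟨c, d⟩ h
    simp only [Prod.mk.injEq, add_right_inj] at h
    rw [h.1, h.2]
  rw [← card_image_of_injective _ hinj]
  apply card_le_rep
  intro p hp
  obtain ⟨p', hp', rfl⟩ := mem_image.1 hp
  obtain ⟨h1, h2⟩ := mem_filter.1 hp'
  obtain ⟨h3, h4⟩ := mem_product.1 h1
  refine ⟨hDA _ h3, hDA _ h4, ?_⟩
  show y + p'.1 + (y + p'.2) = 2 * y + σ
  have h2' : p'.1 + p'.2 = σ := h2
  omega

/-! ## Descendants -/

theorem descendants {q : ℕ} {C : Finset ℕ} (hU : Uniq q C) {s : ℕ} {A : Set ℕ} {x : ℕ}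
    (hx : x ∈ A) : ∀ k, (∀ j < k, ∀ v ∈ V q C j, q ^ j * x + v ∉ Poor q C s A) →
    ∃ D : Finset ℕ, D ⊆ V q C k ∧ s ^ k ≤ D.card ∧ ∀ v ∈ D, q ^ k * x + v ∈ A := by
  classical
  intro k
  induction k with
  | zero =>
    intro _
    refine ⟨{0}, by simp [V], by simp, ?_⟩
    intro v hv
    rw [mem_singleton.1 hv]
    simpa using hx
  | succ k ih =>
    intro h
    obtain ⟨D, hD1, hD2, hD3⟩ := ih (fun j hj => h j (by omega))
    set P : Finset (ℕ × ℕ) := D.biUnion fun v =>
      (C.filter fun c => q * (q ^ k * x + v) + c ∈ A).image fun c => (v, c) with hP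
    have hPmem : ∀ p : ℕ × ℕ, p ∈ P ↔ p.1 ∈ D ∧ p.2 ∈ C ∧ q * (q ^ k * x + p.1) + p.2 ∈ A := by
      rintro ⟨v, c⟩
      simp only [hP, mem_biUnion, mem_image, mem_filter, Prod.mk.injEq]
      constructor
      · rintro ⟨v', hv', c', ⟨hc', hA⟩, rfl, rfl⟩
        exact ⟨hv', hc', hA⟩
      · rintro ⟨hv, hc, hA⟩
        exact ⟨v, hv, c, ⟨hc, hA⟩, rfl, rfl⟩
    have hPcard : s * D.card ≤ P.card := by
      rw [hP, card_biUnion]
      · have : ∀ v ∈ D, s ≤ ((C.filter fun c => q * (q ^ k * x + v) + c ∈ A).image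
            fun c => (v, c)).card := by
          intro v hv
          rw [card_image_of_injective _ (fun c c' hcc => (Prod.mk.inj hcc).2)]
          by_contra hlt
          push Not at hlt
          exact h k (by omega) v (hD1 hv) ⟨hD3 v hv, hlt⟩
        calc s * D.card = ∑ _v ∈ D, s := by rw [sum_const, smul_eq_mul, mul_comm]
          _ ≤ _ := sum_le_sum this
      · intro v _ v' _ hne
        rw [Function.onFun, disjoint_left]
        intro p hp hp'
        obtain ⟨c, _, rfl⟩ := mem_image.1 hp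
        obtain ⟨c', _, h'⟩ := mem_image.1 hp'
        exact hne (Prod.mk.inj h').1.symm
    refine ⟨P.image fun p => q * p.1 + p.2, ?_, ?_, ?_⟩
    · intro y hy
      obtain ⟨p, hp, rfl⟩ := mem_image.1 hy
      have hp' := (hPmem p).1 hp
      exact mem_V_succ.2 ⟨p.1, hD1 hp'.1, p.2, hp'.2.1, rfl⟩
    · rw [card_image_of_injOn]
      · calc s ^ (k + 1) = s * s ^ k := by ring
          _ ≤ s * D.card := Nat.mul_le_mul_left _ hD2
          _ ≤ P.card := hPcard
      · intro p hp p' hp' he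
        have h1 := (hPmem p).1 hp
        have h2 := (hPmem p').1 hp'
        have := hU k p.1 (hD1 h1.1) p'.1 (hD1 h2.1) p.2 h1.2.1 p'.2 h2.2.1 he
        exact Prod.ext this.1 this.2
    · intro y hy
      obtain ⟨p, hp, rfl⟩ := mem_image.1 hy
      have h1 := ((hPmem p).1 hp).2.2
      have : q ^ (k + 1) * x + (q * p.1 + p.2) = q * (q ^ k * x + p.1) + p.2 := by ring
      rw [this]
      exact h1

/-! ## Sparse sets of exceptions -/

/-- `E` is sparse relative to `A` -/
def Sparse (A E : Set ℕ) : Prop :=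
  ∀ D : ℕ, ∀ ε : ℝ, 0 < ε → ∃ X : ℕ, 0 < count A X ∧ (count E (D * X) : ℝ) ≤ ε * count A X

theorem count_mono {E : Set ℕ} {M N : ℕ} (h : M ≤ N) : count E M ≤ count E N :=
  Set.ncard_le_ncard (Set.inter_subset_inter_right _ (Set.Icc_subset_Icc_right h))
    ((Set.finite_Icc 1 N).subset Set.inter_subset_right)

theorem sparse_of_dense {g : ℕ → ℝ} (hg : Monotone g) (hg0 : ∀ N, 0 < g N) {A E : Set ℕ}
    (h : DenseUpTo g A E) : Sparse A E := by
  obtain ⟨⟨c, hc, hA⟩, hE⟩ := h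
  intro D ε hε
  set K : ℝ := Real.sqrt ((D : ℝ) + 1) with hK
  have hK0 : 0 < K := Real.sqrt_pos.2 (by positivity)
  have h1 := hE (ε * c / K) (by positivity)
  obtain ⟨N0, hN0⟩ := eventually_atTop.1 h1
  obtain ⟨X, hX1, hX2⟩ := (hA.and_eventually (eventually_ge_atTop (max N0 1))).exists
  have hX3 : N0 ≤ X := (le_max_left _ _).trans hX2
  have hX4 : 1 ≤ X := (le_max_right _ _).trans hX2
  have hX0 : (0 : ℝ) < X := by exact_mod_cast hX4
  have hpos : 0 < Real.sqrt X / g X := div_pos (Real.sqrt_pos.2 hX0) (hg0 X)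
  have hcount : (0 : ℝ) < count A X := lt_of_lt_of_le (mul_pos hc hpos) hX1
  refine ⟨X, by exact_mod_cast hcount, ?_⟩
  have hDX : X ≤ (D + 1) * X := Nat.le_mul_of_pos_left _ (by omega)
  have h2 := hN0 ((D + 1) * X) (hX3.trans hDX)
  have h3 : (count E (D * X) : ℝ) ≤ count E ((D + 1) * X) := by
    exact_mod_cast count_mono (Nat.mul_le_mul_right _ (by omega))
  have h4 : Real.sqrt (((D + 1) * X : ℕ) : ℝ) / g ((D + 1) * X) ≤ K * (Real.sqrt X / g X) := by
    have h5 : Real.sqrt (((D + 1) * X : ℕ) : ℝ) = K * Real.sqrt X := by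
      rw [hK, ← Real.sqrt_mul (by positivity)]
      push_cast
      rfl
    rw [h5, mul_div_assoc]
    apply mul_le_mul_of_nonneg_left _ hK0.le
    exact div_le_div_of_nonneg_left (Real.sqrt_nonneg _) (hg0 X) (hg hDX)
  calc (count E (D * X) : ℝ) ≤ count E ((D + 1) * X) := h3
    _ ≤ ε * c / K * (Real.sqrt (((D + 1) * X : ℕ) : ℝ) / g ((D + 1) * X)) := h2
    _ ≤ ε * c / K * (K * (Real.sqrt X / g X)) := by gcongr
    _ = ε * (c * (Real.sqrt X / g X)) := by field_simp
    _ ≤ ε * count A X := by gcongr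

theorem exists_rich {q : ℕ} (hq : 2 ≤ q) {C : Finset ℕ} {A E : Set ℕ} (h : Sparse A E) (k : ℕ) :
    ∃ x ∈ A, 1 ≤ x ∧ ∀ j < k, ∀ v ∈ V q C j, q ^ j * x + v ∉ E := by
  classical
  by_contra hcon
  push Not at hcon
  obtain ⟨W, hW⟩ : ∃ W : ℕ, W = ∑ j ∈ range k, (V q C j).card := ⟨_, rfl⟩
  obtain ⟨D, hD⟩ : ∃ D : ℕ, D = q ^ k + ∑ j ∈ range k, ∑ v ∈ V q C j, v := ⟨_, rfl⟩
  obtain ⟨X, hX1, hX2⟩ := h D (1 / (W + 1)) (by positivity)
  have hfinA : (A ∩ Set.Icc 1 X).Finite := (Set.finite_Icc 1 X).subset Set.inter_subset_right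
  have hfinE : (E ∩ Set.Icc 1 (D * X)).Finite :=
    (Set.finite_Icc 1 _).subset Set.inter_subset_right
  have hsub : hfinA.toFinset ⊆ (range k).biUnion fun j => (V q C j).biUnion fun v =>
      hfinA.toFinset.filter fun x => q ^ j * x + v ∈ hfinE.toFinset := by
    intro x hx
    have hx' : x ∈ A ∩ Set.Icc 1 X := (Set.Finite.mem_toFinset hfinA).1 hx
    obtain ⟨j, hj, v, hv, hE⟩ := hcon x hx'.1 hx'.2.1
    simp only [mem_biUnion, mem_range, mem_filter]
    refine ⟨j, hj, v, hv, hx, ?_⟩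
    rw [Set.Finite.mem_toFinset]
    refine ⟨hE, ?_, ?_⟩
    · have h1 : 1 ≤ q ^ j := Nat.one_le_pow _ _ (by omega)
      have h2 := hx'.2.1
      nlinarith
    · have h1 : q ^ j ≤ q ^ k := Nat.pow_le_pow_right (by omega) hj.le
      have h2 : v ≤ ∑ j ∈ range k, ∑ v ∈ V q C j, v := by
        calc v ≤ ∑ v ∈ V q C j, v := single_le_sum (f := fun v => v) (fun _ _ => Nat.zero_le _) hv
          _ ≤ _ := single_le_sum (f := fun j => ∑ v ∈ V q C j, v) (fun _ _ => Nat.zero_le _)
            (mem_range.2 hj)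
      have h3 := hx'.2.1
      have h4 := hx'.2.2
      have h5 : 1 ≤ X := h3.trans h4
      calc q ^ j * x + v ≤ q ^ k * X + (∑ j ∈ range k, ∑ v ∈ V q C j, v) * X := by
            apply add_le_add (Nat.mul_le_mul h1 h4)
            nlinarith
        _ = D * X := by rw [hD]; ring
  have hcard : hfinA.toFinset.card ≤ W * hfinE.toFinset.card := by
    calc hfinA.toFinset.card ≤ _ := card_le_card hsub
      _ ≤ ∑ j ∈ range k, ∑ v ∈ V q C j,
          (hfinA.toFinset.filter fun x => q ^ j * x + v ∈ hfinE.toFinset).card := by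
          refine card_biUnion_le.trans (sum_le_sum fun j _ => card_biUnion_le)
      _ ≤ ∑ j ∈ range k, ∑ _v ∈ V q C j, hfinE.toFinset.card := by
          refine sum_le_sum fun j _ => sum_le_sum fun v _ => ?_
          apply card_le_card_of_injOn (fun x => q ^ j * x + v)
          · intro x hx
            exact (mem_filter.1 hx).2
          · intro x _ y _ hxy
            have h1 : q ^ j * x = q ^ j * y := by
              have : q ^ j * x + v = q ^ j * y + v := hxy
              omega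
            exact Nat.eq_of_mul_eq_mul_left (Nat.pow_pos (by omega)) h1
      _ = W * hfinE.toFinset.card := by
          simp only [sum_const, smul_eq_mul]
          rw [hW, sum_mul]
  have hA' : count A X = hfinA.toFinset.card := Set.ncard_eq_toFinset_card _ hfinA
  have hE' : count E (D * X) = hfinE.toFinset.card := Set.ncard_eq_toFinset_card _ hfinE
  rw [← hA', ← hE'] at hcard
  have h1 : (count A X : ℝ) ≤ W * count E (D * X) := by exact_mod_cast hcard
  have h2 : (0 : ℝ) < count A X := by exact_mod_cast hX1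
  have h3 : (W : ℝ) * count E (D * X) ≤ W * (1 / (W + 1) * count A X) := by gcongr
  have h4 : (W : ℝ) * (1 / (W + 1) * count A X) < count A X := by
    have h5 : (W : ℝ) / (W + 1) < 1 := by
      rw [div_lt_one (by positivity)]
      linarith
    calc (W : ℝ) * (1 / (W + 1) * count A X) = W / (W + 1) * count A X := by ring
      _ < 1 * count A X := by gcongr
      _ = count A X := one_mul _
  linarith

/-- the general statement for branching sets -/
theorem branching {q : ℕ} (hq : 2 ≤ q) {C : Finset ℕ} (hU : Uniq q C) {s : ℕ}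
    (hs : (C + C).card < s ^ 2) {A : Set ℕ} (h : Sparse A (Poor q C s A)) : Unb A := by
  intro B
  have hs0 : 0 < s := by
    rcases Nat.eq_zero_or_pos s with rfl | h
    · simp at hs
    · exact h
  -- a depth `k` with enough elements
  obtain ⟨k, hk⟩ : ∃ k : ℕ, (C + C).card ^ k * B ≤ (s ^ k) ^ 2 := by
    rcases Nat.eq_zero_or_pos (C + C).card with h0 | h0
    · exact ⟨1, by rw [h0]; simp⟩
    · have h1 : (1 : ℝ) < (s ^ 2 : ℕ) / ((C + C).card : ℝ) := by
        rw [one_lt_div (by exact_mod_cast h0)]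
        exact_mod_cast hs
      obtain ⟨k, hk⟩ := pow_unbounded_of_one_lt (B : ℝ) h1
      refine ⟨k, ?_⟩
      rw [div_pow, lt_div_iff₀ (by positivity)] at hk
      have h2 : ((C + C).card ^ k * B : ℕ) ≤ (s ^ 2) ^ k := by
        have : (((C + C).card ^ k * B : ℕ) : ℝ) ≤ (((s ^ 2) ^ k : ℕ) : ℝ) := by
          push_cast
          push_cast at hk
          linarith
        exact_mod_cast this
      calc (C + C).card ^ k * B ≤ (s ^ 2) ^ k := h2
        _ = (s ^ k) ^ 2 := by ring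
  obtain ⟨x, hxA, _, hx⟩ := exists_rich hq (C := C) h k
  obtain ⟨D, hD1, hD2, hD3⟩ := descendants hU hxA k hx
  have hDne : D.Nonempty := by
    rw [← card_pos]
    exact lt_of_lt_of_le (Nat.pow_pos hs0) hD2
  obtain ⟨σ, _, hσ⟩ := popular (W := V q C k + V q C k) (t := B) hDne hD3
    (Finset.add_subset_add hD1 hD1)
    (by
      calc (V q C k + V q C k).card * B ≤ (C + C).card ^ k * B :=
            Nat.mul_le_mul_right _ (card_V_add k)
        _ ≤ (s ^ k) ^ 2 := hk
        _ ≤ D.card ^ 2 := Nat.pow_le_pow_left hD2 2)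
  exact ⟨_, hσ⟩

/-! ## Exact versions -/

theorem rpow_bound {q : ℕ} (hq : 2 ≤ q) {k L n : ℕ} (hL : 1 ≤ L) (hn : n ≤ L * q ^ k) {ρ : ℝ}
    (hρ : 1 ≤ ρ) :
    (1 / (L : ℝ) ^ (Real.log ρ / Real.log q)) * (n : ℝ) ^ (Real.log ρ / Real.log q) ≤ ρ ^ k := by
  have hlq : 0 < Real.log q := Real.log_pos (by exact_mod_cast (by omega : 1 < q))
  have hlr : 0 ≤ Real.log ρ := Real.log_nonneg hρ
  set δ : ℝ := Real.log ρ / Real.log q with hδ
  have hδ0 : 0 ≤ δ := div_nonneg hlr hlq.le
  have hL0 : (0 : ℝ) < L := by exact_mod_cast hL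
  have hq0 : (0 : ℝ) < q := by exact_mod_cast (by omega : 0 < q)
  have h1 : (n : ℝ) ≤ L * (q : ℝ) ^ k := by exact_mod_cast hn
  have h2 : (n : ℝ) ^ δ ≤ (L : ℝ) ^ δ * ρ ^ k := by
    calc (n : ℝ) ^ δ ≤ (L * (q : ℝ) ^ k) ^ δ := Real.rpow_le_rpow (by positivity) h1 hδ0
      _ = (L : ℝ) ^ δ * ((q : ℝ) ^ k) ^ δ := Real.mul_rpow hL0.le (by positivity)
      _ = (L : ℝ) ^ δ * ρ ^ k := by
          congr 1
          rw [← Real.rpow_natCast (q : ℝ) k, ← Real.rpow_mul hq0.le, mul_comm (k : ℝ) δ,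
            Real.rpow_mul hq0.le, Real.rpow_natCast]
          congr 1
          rw [hδ, Real.rpow_def_of_pos hq0, mul_div_cancel₀ _ hlq.ne',
            Real.exp_log (by linarith)]
  have h3 : (0 : ℝ) < (L : ℝ) ^ δ := Real.rpow_pos_of_pos hL0 _
  rw [one_div, inv_mul_le_iff₀ h3]
  exact h2

theorem branching_exact {q : ℕ} (hq : 2 ≤ q) {C : Finset ℕ} (hU : Uniq q C) {s : ℕ}
    (hs : (C + C).card < s ^ 2) {A : Set ℕ} (hA : A.Nonempty) (h : Poor q C s A = ∅) :
    Growth A (Real.log ((s : ℝ) ^ 2 / (C + C).card) / Real.log q) := by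
  classical
  have hs0 : 0 < s := by
    rcases Nat.eq_zero_or_pos s with rfl | h
    · simp at hs
    · exact h
  have hchild : ∀ x ∈ A, s ≤ (C.filter fun c => q * x + c ∈ A).card := by
    intro x hx
    by_contra hlt
    push Not at hlt
    have : x ∈ Poor q C s A := by
      refine ⟨hx, ?_⟩
      convert hlt
    rw [h] at this
    exact this
  -- the set `C` is not empty and `s ≥ 2`
  obtain ⟨x0, hx0⟩ := hA
  have hCne : C.Nonempty := by
    have h1 := hchild x0 hx0
    have h2 : 0 < (C.filter fun c => q * x0 + c ∈ A).card := by omega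
    obtain ⟨c, hc⟩ := card_pos.1 h2
    exact ⟨c, (mem_filter.1 hc).1⟩
  have hCC : 1 ≤ (C + C).card := by
    have : (C + C).Nonempty := hCne.add hCne
    exact card_pos.2 this
  have hs2 : 2 ≤ s := by
    by_contra hlt
    have : s = 1 := by omega
    subst this
    omega
  -- a positive element
  obtain ⟨x, hx, hx1⟩ : ∃ x ∈ A, 1 ≤ x := by
    rcases Nat.eq_zero_or_pos x0 with h0 | h0
    · subst h0
      have h1 := hchild 0 hx0
      have h2 : 1 < (C.filter fun c => q * 0 + c ∈ A).card := by omega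
      obtain ⟨c, hc, c', hc', hne⟩ := one_lt_card.1 h2
      have h3 := (mem_filter.1 hc).2
      have h4 := (mem_filter.1 hc').2
      simp only [mul_zero, zero_add] at h3 h4
      rcases Nat.eq_zero_or_pos c with h5 | h5
      · rcases Nat.eq_zero_or_pos c' with h6 | h6
        · exact absurd (h5.trans h6.symm) hne
        · exact ⟨c', h4, h6⟩
      · exact ⟨c, h3, h5⟩
    · exact ⟨x0, hx0, h0⟩
  set M : ℕ := C.sup id with hM
  have hMC : ∀ c ∈ C, c ≤ M := fun c hc => Finset.le_sup (f := id) hc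
  set ρ : ℝ := (s : ℝ) ^ 2 / (C + C).card with hρ
  have hCC0 : (0 : ℝ) < (C + C).card := by exact_mod_cast hCC
  have hρ1 : 1 ≤ ρ := by
    rw [hρ, le_div_iff₀ hCC0, one_mul]
    exact_mod_cast hs.le
  set L : ℕ := 2 * (x + M) with hL
  have hL1 : 1 ≤ L := by omega
  refine ⟨1 / (L : ℝ) ^ (Real.log ρ / Real.log q), by positivity, ?_⟩
  intro N
  set k : ℕ := N with hk
  obtain ⟨D, hD1, hD2, hD3⟩ := descendants (s := s) hU hx k (by
    intro j _ v _
    rw [h]
    exact Set.notMem_empty _)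
  have hDne : D.Nonempty := by
    rw [← card_pos]
    exact lt_of_lt_of_le (Nat.pow_pos hs0) hD2
  -- the largest fibre
  obtain ⟨σ, hσW, hσ⟩ : ∃ σ ∈ V q C k + V q C k,
      ρ ^ k ≤ (rep A (2 * (q ^ k * x) + σ) : ℝ) := by
    by_contra hcon
    push Not at hcon
    have hWne : (V q C k + V q C k).Nonempty := by
      obtain ⟨v, hv⟩ := hDne
      exact ⟨v + v, Finset.add_mem_add (hD1 hv) (hD1 hv)⟩
    -- number of pairs
    have h1 : (D.card : ℝ) ^ 2 ≤ ∑ σ ∈ V q C k + V q C k, (rep A (2 * (q ^ k * x) + σ) : ℝ) := by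
      have h2 : (D ×ˢ D).card = ∑ σ ∈ V q C k + V q C k,
          ((D ×ˢ D).filter fun p => p.1 + p.2 = σ).card :=
        card_eq_sum_card_fiberwise (by
          intro p hp
          obtain ⟨h1, h2⟩ := mem_product.1 hp
          exact Finset.add_mem_add (hD1 h1) (hD1 h2))
      have h3 : D.card ^ 2 ≤ ∑ σ ∈ V q C k + V q C k, rep A (2 * (q ^ k * x) + σ) := by
        rw [sq, ← card_product, h2]
        apply sum_le_sum
        intro σ _
        have hinj : Function.Injective fun p : ℕ × ℕ => (q ^ k * x + p.1, q ^ k * x + p.2) := by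
          rintro ⟨a, b⟩ ⟨c, d⟩ h
          simp only [Prod.mk.injEq, add_right_inj] at h
          rw [h.1, h.2]
        rw [← card_image_of_injective _ hinj]
        apply card_le_rep
        intro p hp
        obtain ⟨p', hp', rfl⟩ := mem_image.1 hp
        obtain ⟨h1, h2⟩ := mem_filter.1 hp'
        obtain ⟨h3, h4⟩ := mem_product.1 h1
        refine ⟨hD3 _ h3, hD3 _ h4, ?_⟩
        show q ^ k * x + p'.1 + (q ^ k * x + p'.2) = 2 * (q ^ k * x) + σ
        have h2' : p'.1 + p'.2 = σ := h2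
        omega
      exact_mod_cast h3
    have h2 : ∑ σ ∈ V q C k + V q C k, (rep A (2 * (q ^ k * x) + σ) : ℝ)
        < ∑ _σ ∈ V q C k + V q C k, ρ ^ k := sum_lt_sum_of_nonempty hWne hcon
    rw [sum_const, nsmul_eq_mul] at h2
    have h3 : ((V q C k + V q C k).card : ℝ) * ρ ^ k ≤ (D.card : ℝ) ^ 2 := by
      have h4 : ((V q C k + V q C k).card : ℝ) ≤ ((C + C).card : ℝ) ^ k := by
        exact_mod_cast card_V_add k
      have h5 : ((s : ℝ) ^ k) ^ 2 ≤ (D.card : ℝ) ^ 2 := by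
        have : (s : ℝ) ^ k ≤ D.card := by exact_mod_cast hD2
        gcongr
      calc ((V q C k + V q C k).card : ℝ) * ρ ^ k ≤ ((C + C).card : ℝ) ^ k * ρ ^ k := by gcongr
        _ = ((C + C).card * ρ) ^ k := (mul_pow _ _ _).symm
        _ = ((s : ℝ) ^ 2) ^ k := by rw [hρ, mul_div_cancel₀ _ hCC0.ne']
        _ = ((s : ℝ) ^ k) ^ 2 := by ring
        _ ≤ _ := h5
    linarith
  refine ⟨2 * (q ^ k * x) + σ, ?_, ?_⟩
  · have h1 : k < q ^ k := Nat.lt_pow_self (by omega)
    show k ≤ _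
    nlinarith
  · refine (rpow_bound hq hL1 ?_ hρ1).trans hσ
    obtain ⟨v, hv, v', hv', rfl⟩ := Finset.mem_add.1 hσW
    have h1 := V_le hq hMC k v hv
    have h2 := V_le hq hMC k v' hv'
    rw [hL]
    nlinarith

/-! ## Two affine maps with the same slope -/

/-- pairs of complementary expansions -/
def P (q c₁ c₂ : ℕ) : ℕ → Finset (ℕ × ℕ)
  | 0 => {(0, 0)}
  | k + 1 => (P q c₁ c₂ k).image (fun p => (q * p.1 + c₁, q * p.2 + c₂)) ∪
      (P q c₁ c₂ k).image (fun p => (q * p.1 + c₂, q * p.2 + c₁))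

/-- the common sum of complementary expansions -/
def σs (q c : ℕ) : ℕ → ℕ
  | 0 => 0
  | k + 1 => q * σs q c k + c

theorem P_spec {q c₁ c₂ : ℕ} (hq : 2 ≤ q) (hc : c₁ ≠ c₂) : ∀ k,
    (P q c₁ c₂ k).card = 2 ^ k ∧ ∀ p ∈ P q c₁ c₂ k, p.1 ∈ V q {c₁, c₂} k ∧
      p.2 ∈ V q {c₁, c₂} k ∧ p.1 + p.2 = σs q (c₁ + c₂) k := by
  intro k
  induction k with
  | zero =>
    refine ⟨by simp [P], ?_⟩
    intro p hp
    rw [P, mem_singleton] at hp
    subst hp
    simp [V, σs]
  | succ k ih =>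
    obtain ⟨ih1, ih2⟩ := ih
    have hU := uniq_pair hq hc
    constructor
    · rw [P, card_union_of_disjoint, card_image_of_injective, card_image_of_injective, ih1]
      · ring
      · rintro ⟨a, b⟩ ⟨a', b'⟩ h
        simp only [Prod.mk.injEq, Nat.add_right_cancel_iff] at h
        rw [Nat.eq_of_mul_eq_mul_left (by omega) h.1, Nat.eq_of_mul_eq_mul_left (by omega) h.2]
      · rintro ⟨a, b⟩ ⟨a', b'⟩ h
        simp only [Prod.mk.injEq, Nat.add_right_cancel_iff] at h
        rw [Nat.eq_of_mul_eq_mul_left (by omega) h.1, Nat.eq_of_mul_eq_mul_left (by omega) h.2]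
      · rw [disjoint_left]
        intro p hp hp'
        obtain ⟨u, hu, rfl⟩ := mem_image.1 hp
        obtain ⟨u', hu', h⟩ := mem_image.1 hp'
        have h1 : q * u'.1 + c₂ = q * u.1 + c₁ := congrArg Prod.fst h
        have := hU k u'.1 (ih2 u' hu').1 u.1 (ih2 u hu).1 c₂ (by simp) c₁ (by simp) h1
        exact hc this.2.symm
    · intro p hp
      rw [P, mem_union] at hp
      rcases hp with hp | hp
      · obtain ⟨u, hu, rfl⟩ := mem_image.1 hp
        obtain ⟨h1, h2, h3⟩ := ih2 u hu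
        refine ⟨mem_V_succ.2 ⟨u.1, h1, c₁, by simp, rfl⟩,
          mem_V_succ.2 ⟨u.2, h2, c₂, by simp, rfl⟩, ?_⟩
        show q * u.1 + c₁ + (q * u.2 + c₂) = q * σs q (c₁ + c₂) k + (c₁ + c₂)
        rw [← h3]
        ring
      · obtain ⟨u, hu, rfl⟩ := mem_image.1 hp
        obtain ⟨h1, h2, h3⟩ := ih2 u hu
        refine ⟨mem_V_succ.2 ⟨u.1, h1, c₂, by simp, rfl⟩,
          mem_V_succ.2 ⟨u.2, h2, c₁, by simp, rfl⟩, ?_⟩
        show q * u.1 + c₂ + (q * u.2 + c₁) = q * σs q (c₁ + c₂) k + (c₁ + c₂)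
        rw [← h3]
        ring

theorem closed_V {q : ℕ} {C : Finset ℕ} {A : Set ℕ} {x : ℕ} (hx : x ∈ A)
    (h : ∀ x ∈ A, ∀ c ∈ C, q * x + c ∈ A) : ∀ k, ∀ v ∈ V q C k, q ^ k * x + v ∈ A := by
  intro k
  induction k with
  | zero =>
    intro v hv
    simp only [V, mem_singleton] at hv
    subst hv
    simpa using hx
  | succ k ih =>
    intro y hy
    obtain ⟨v, hv, c, hc, rfl⟩ := mem_V_succ.1 hy
    have := h _ (ih v hv) c hc
    have e : q ^ (k + 1) * x + (q * v + c) = q * (q ^ k * x + v) + c := by ring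
    rw [e]
    exact this

theorem same_slope {q c₁ c₂ : ℕ} (hq : 2 ≤ q) (hc : c₁ ≠ c₂) {A : Set ℕ} (hA : A.Nonempty)
    (h : ∀ x ∈ A, q * x + c₁ ∈ A ∧ q * x + c₂ ∈ A) :
    Growth A (Real.log 2 / Real.log q) := by
  have hcl : ∀ x ∈ A, ∀ c ∈ ({c₁, c₂} : Finset ℕ), q * x + c ∈ A := by
    intro x hx c hcC
    simp only [mem_insert, mem_singleton] at hcC
    rcases hcC with rfl | rfl
    · exact (h x hx).1
    · exact (h x hx).2
  obtain ⟨x0, hx0⟩ := hA
  obtain ⟨x, hx, hx1⟩ : ∃ x ∈ A, 1 ≤ x := by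
    rcases Nat.eq_zero_or_pos c₁ with h1 | h1
    · refine ⟨_, (h x0 hx0).2, ?_⟩
      have : 0 < c₂ := Nat.pos_of_ne_zero fun h2 => hc (h1.trans h2.symm)
      omega
    · exact ⟨_, (h x0 hx0).1, by omega⟩
  set M : ℕ := c₁ + c₂ with hM
  set L : ℕ := 2 * (x + M) with hL
  have hL1 : 1 ≤ L := by omega
  refine ⟨1 / (L : ℝ) ^ (Real.log 2 / Real.log q), by positivity, ?_⟩
  intro k
  obtain ⟨hP1, hP2⟩ := P_spec hq hc k
  refine ⟨2 * (q ^ k * x) + σs q (c₁ + c₂) k, ?_, ?_⟩
  · have h1 : k < q ^ k := Nat.lt_pow_self (by omega)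
    show k ≤ _
    nlinarith
  · have h3 : (2 : ℝ) ^ k ≤ rep A (2 * (q ^ k * x) + σs q (c₁ + c₂) k) := by
      have h4 : 2 ^ k ≤ rep A (2 * (q ^ k * x) + σs q (c₁ + c₂) k) := by
        rw [← hP1]
        have hinj : Function.Injective fun p : ℕ × ℕ => (q ^ k * x + p.1, q ^ k * x + p.2) := by
          rintro ⟨a, b⟩ ⟨c, d⟩ h
          simp only [Prod.mk.injEq, add_right_inj] at h
          rw [h.1, h.2]
        rw [← card_image_of_injective _ hinj]
        apply card_le_rep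
        intro p hp
        obtain ⟨p', hp', rfl⟩ := mem_image.1 hp
        obtain ⟨h1, h2, h3⟩ := hP2 p' hp'
        refine ⟨closed_V hx hcl k _ h1, closed_V hx hcl k _ h2, ?_⟩
        show q ^ k * x + p'.1 + (q ^ k * x + p'.2) = 2 * (q ^ k * x) + σs q (c₁ + c₂) k
        omega
      exact_mod_cast h4
    refine (rpow_bound hq hL1 ?_ (by norm_num)).trans h3
    -- the size of the common sum
    have hMC : ∀ c ∈ ({c₁, c₂} : Finset ℕ), c ≤ M := by
      intro c hcC
      simp only [mem_insert, mem_singleton] at hcC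
      omega
    have hne : (P q c₁ c₂ k).Nonempty := by
      rw [← card_pos, hP1]
      positivity
    obtain ⟨p, hp⟩ := hne
    obtain ⟨h1, h2, h3⟩ := hP2 p hp
    have h4 := V_le hq hMC k _ h1
    have h5 := V_le hq hMC k _ h2
    rw [← h3, hL]
    nlinarith

/-! ## Two affine maps which do not commute -/

theorem slope_ge {a₁ b₁ a₂ b₂ : ℕ} (h1 : 1 ≤ a₁) (h2 : 1 ≤ a₂)
    (hne : a₁ * b₂ + b₁ ≠ a₂ * b₁ + b₂) : 2 ≤ a₁ * a₂ := by
  by_contra hlt
  have h3 : a₁ * a₂ = 1 := by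
    have : 1 ≤ a₁ * a₂ := Nat.mul_pos h1 h2
    omega
  have h4 : a₁ = 1 := Nat.eq_one_of_mul_eq_one_right h3
  have h5 : a₂ = 1 := Nat.eq_one_of_mul_eq_one_left h3
  subst h4 h5
  apply hne
  ring

theorem two_maps {a₁ b₁ a₂ b₂ : ℕ} (h1 : 1 ≤ a₁) (h2 : 1 ≤ a₂)
    (hne : a₁ * b₂ + b₁ ≠ a₂ * b₁ + b₂) {A : Set ℕ} (hA : A.Nonempty)
    (h : ∀ x ∈ A, a₁ * x + b₁ ∈ A ∧ a₂ * x + b₂ ∈ A) :
    Growth A (Real.log 2 / Real.log ((a₁ * a₂ : ℕ) : ℝ)) := by
  refine same_slope (slope_ge h1 h2 hne) hne hA ?_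
  intro x hx
  obtain ⟨h3, h4⟩ := h x hx
  constructor
  · have h5 := (h _ h4).1
    have e : a₁ * (a₂ * x + b₂) + b₁ = a₁ * a₂ * x + (a₁ * b₂ + b₁) := by ring
    rwa [e] at h5
  · have h5 := (h _ h3).2
    have e : a₂ * (a₁ * x + b₁) + b₂ = a₁ * a₂ * x + (a₂ * b₁ + b₂) := by ring
    rwa [e] at h5

theorem count_preimage {E F : Set ℕ} {a b N M : ℕ} (ha : 1 ≤ a)
    (hM : a * N + b ≤ M) (hF : ∀ x ∈ F, a * x + b ∈ E) : count F N ≤ count E M := by
  have hfin : (E ∩ Set.Icc 1 M).Finite := (Set.finite_Icc 1 M).subset Set.inter_subset_right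
  apply Set.ncard_le_ncard_of_injOn (fun x => a * x + b) _ _ hfin
  · rintro x ⟨hx, hx1, hx2⟩
    refine ⟨hF x hx, ?_, ?_⟩
    · show 1 ≤ a * x + b
      nlinarith
    · show a * x + b ≤ M
      nlinarith
  · intro x _ y _ hxy
    have : a * x + b = a * y + b := hxy
    exact Nat.eq_of_mul_eq_mul_left ha (by omega)

theorem count_union_le (E F : Set ℕ) (N : ℕ) : count (E ∪ F) N ≤ count E N + count F N := by
  rw [count, Set.union_inter_distrib_right]
  exact Set.ncard_union_le _ _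

theorem two_maps_almost {a₁ b₁ a₂ b₂ : ℕ} (h1 : 1 ≤ a₁) (h2 : 1 ≤ a₂)
    (hne : a₁ * b₂ + b₁ ≠ a₂ * b₁ + b₂) {A : Set ℕ}
    (h : Sparse A {x | x ∈ A ∧ (a₁ * x + b₁ ∉ A ∨ a₂ * x + b₂ ∉ A)}) : Unb A := by
  classical
  set E : Set ℕ := {x | x ∈ A ∧ (a₁ * x + b₁ ∉ A ∨ a₂ * x + b₂ ∉ A)} with hE
  set q : ℕ := a₁ * a₂ with hq
  set c₁ : ℕ := a₁ * b₂ + b₁ with hc₁
  set c₂ : ℕ := a₂ * b₁ + b₂ with hc₂
  have hq2 : 2 ≤ q := slope_ge h1 h2 hne
  have hcard : (({c₁, c₂} : Finset ℕ) + {c₁, c₂}).card < 2 ^ 2 := by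
    have hsub : ({c₁, c₂} : Finset ℕ) + {c₁, c₂} ⊆ {c₁ + c₁, c₁ + c₂, c₂ + c₂} := by
      intro y hy
      obtain ⟨u, hu, v, hv, rfl⟩ := Finset.mem_add.1 hy
      simp only [mem_insert, mem_singleton] at hu hv ⊢
      rcases hu with rfl | rfl <;> rcases hv with rfl | rfl <;> omega
    have := (card_le_card hsub).trans card_le_three
    omega
  apply branching hq2 (uniq_pair hq2 hne) (s := 2) hcard
  -- the exceptions
  have hsub : Poor q {c₁, c₂} 2 A ⊆ (E ∪ {x | a₂ * x + b₂ ∈ E}) ∪ {x | a₁ * x + b₁ ∈ E} := by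
    rintro x ⟨hxA, hx⟩
    by_contra hcon
    simp only [Set.mem_union, not_or] at hcon
    obtain ⟨⟨h3, h4⟩, h5⟩ := hcon
    have h3' : a₁ * x + b₁ ∈ A ∧ a₂ * x + b₂ ∈ A := by
      by_contra hno
      apply h3
      refine ⟨hxA, ?_⟩
      tauto
    have h6 : a₁ * (a₂ * x + b₂) + b₁ ∈ A := by
      by_contra hno
      exact h4 ⟨h3'.2, Or.inl hno⟩
    have h7 : a₂ * (a₁ * x + b₁) + b₂ ∈ A := by
      by_contra hno
      exact h5 ⟨h3'.1, Or.inr hno⟩
    have e1 : a₁ * (a₂ * x + b₂) + b₁ = q * x + c₁ := by rw [hq, hc₁]; ring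
    have e2 : a₂ * (a₁ * x + b₁) + b₂ = q * x + c₂ := by rw [hq, hc₂]; ring
    rw [e1] at h6
    rw [e2] at h7
    have hall : (({c₁, c₂} : Finset ℕ).filter fun c => q * x + c ∈ A) = {c₁, c₂} := by
      apply filter_true_of_mem
      intro c hc
      simp only [mem_insert, mem_singleton] at hc
      rcases hc with rfl | rfl
      · exact h6
      · exact h7
    have h8 : (({c₁, c₂} : Finset ℕ).filter fun c => q * x + c ∈ A).card = 2 := by
      rw [hall, card_pair hne]
    have h9 : (({c₁, c₂} : Finset ℕ).filter fun c => q * x + c ∈ A).card < 2 := by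
      convert hx
    omega
  intro D ε hε
  set K : ℕ := a₁ + a₂ + b₁ + b₂ with hK
  obtain ⟨X, hX1, hX2⟩ := h (K * (D + 1)) (ε / 3) (by positivity)
  refine ⟨X, hX1, ?_⟩
  have hXpos : 1 ≤ X := by
    rcases Nat.eq_zero_or_pos X with h0 | h0
    · subst h0
      simp [count] at hX1
    · exact h0
  have hmon : count (Poor q {c₁, c₂} 2 A) (D * X) ≤ 3 * count E (K * (D + 1) * X) := by
    have hN : D * X ≤ (D + 1) * X := Nat.mul_le_mul_right _ (by omega)
    have hN1 : 1 ≤ (D + 1) * X := Nat.mul_pos (by omega) hXpos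
    have hb1 : a₁ * (D * X) + b₁ ≤ K * (D + 1) * X := by
      have : K * (D + 1) * X = K * ((D + 1) * X) := by ring
      rw [this, hK]
      nlinarith
    have hb2 : a₂ * (D * X) + b₂ ≤ K * (D + 1) * X := by
      have : K * (D + 1) * X = K * ((D + 1) * X) := by ring
      rw [this, hK]
      nlinarith
    have hb3 : D * X ≤ K * (D + 1) * X := by
      have : K * (D + 1) * X = K * ((D + 1) * X) := by ring
      rw [this, hK]
      nlinarith
    calc count (Poor q {c₁, c₂} 2 A) (D * X)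
        ≤ count ((E ∪ {x | a₂ * x + b₂ ∈ E}) ∪ {x | a₁ * x + b₁ ∈ E}) (D * X) :=
          Set.ncard_le_ncard (Set.inter_subset_inter_left _ hsub)
            ((Set.finite_Icc 1 _).subset Set.inter_subset_right)
      _ ≤ count (E ∪ {x | a₂ * x + b₂ ∈ E}) (D * X) + count {x | a₁ * x + b₁ ∈ E} (D * X) :=
          count_union_le _ _ _
      _ ≤ (count E (D * X) + count {x | a₂ * x + b₂ ∈ E} (D * X))
          + count {x | a₁ * x + b₁ ∈ E} (D * X) := by
          gcongr
          exact count_union_le _ _ _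
      _ ≤ (count E (K * (D + 1) * X) + count E (K * (D + 1) * X))
          + count E (K * (D + 1) * X) := by
          gcongr
          · exact count_mono hb3
          · exact count_preimage h2 hb2 (fun x hx => hx)
          · exact count_preimage h1 hb1 (fun x hx => hx)
      _ = 3 * count E (K * (D + 1) * X) := by ring
  have h3 : (count (Poor q {c₁, c₂} 2 A) (D * X) : ℝ) ≤ 3 * count E (K * (D + 1) * X) := by
    exact_mod_cast hmon
  calc (count (Poor q {c₁, c₂} 2 A) (D * X) : ℝ) ≤ 3 * count E (K * (D + 1) * X) := h3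
    _ ≤ 3 * (ε / 3 * count A X) := by gcongr
    _ = ε * count A X := by ring

/-! ## Bilinear operations -/

theorem add_closed {δ : ℕ} {A : Set ℕ} (hA : ∃ a ∈ A, 1 ≤ a)
    (h : ∀ x ∈ A, ∀ y ∈ A, x + y + δ ∈ A) : Growth A 1 := by
  obtain ⟨a, ha, ha1⟩ := hA
  have hk : ∀ k : ℕ, (k + 1) * a + k * δ ∈ A := by
    intro k
    induction k with
    | zero => simpa using ha
    | succ k ih =>
      have := h _ ih a ha
      have e : (k + 1) * a + k * δ + a + δ = (k + 1 + 1) * a + (k + 1) * δ := by ring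
      rwa [e] at this
  refine ⟨1 / (2 * (a + δ : ℝ)), by positivity, ?_⟩
  intro K
  refine ⟨(K + 2) * a + K * δ, by nlinarith, ?_⟩
  have h1 : K + 1 ≤ rep A ((K + 2) * a + K * δ) := by
    have hinj : Function.Injective fun i : ℕ =>
        ((i + 1) * a + i * δ, (K - i + 1) * a + (K - i) * δ) := by
      intro i j hij
      have hij' : (i + 1) * a + i * δ = (j + 1) * a + j * δ := congrArg Prod.fst hij
      rcases lt_trichotomy i j with h | h | h
      · exfalso
        have : (i + 1) * a + i * δ < (j + 1) * a + j * δ := by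
          have h2 : (i + 1) * a < (j + 1) * a := Nat.mul_lt_mul_of_pos_right (by omega) ha1
          have h3 : i * δ ≤ j * δ := Nat.mul_le_mul_right _ h.le
          omega
        omega
      · exact h
      · exfalso
        have : (j + 1) * a + j * δ < (i + 1) * a + i * δ := by
          have h2 : (j + 1) * a < (i + 1) * a := Nat.mul_lt_mul_of_pos_right (by omega) ha1
          have h3 : j * δ ≤ i * δ := Nat.mul_le_mul_right _ h.le
          omega
        omega
    have h2 : ((range (K + 1)).image fun i : ℕ =>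
        ((i + 1) * a + i * δ, (K - i + 1) * a + (K - i) * δ)).card = K + 1 := by
      rw [card_image_of_injective _ hinj, card_range]
    rw [← h2]
    apply card_le_rep
    intro p hp
    obtain ⟨i, hi, rfl⟩ := mem_image.1 hp
    have hi' : i ≤ K := by
      have := mem_range.1 hi
      omega
    refine ⟨hk i, hk (K - i), ?_⟩
    show (i + 1) * a + i * δ + ((K - i + 1) * a + (K - i) * δ) = (K + 2) * a + K * δ
    obtain ⟨m, rfl⟩ := Nat.exists_eq_add_of_le hi'
    have : i + m - i = m := by omega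
    rw [this]
    ring
  rw [Real.rpow_one]
  have h3 : ((K : ℝ) + 1) ≤ rep A ((K + 2) * a + K * δ) := by exact_mod_cast h1
  refine le_trans ?_ h3
  have ha0 : (1 : ℝ) ≤ a := by exact_mod_cast ha1
  have hd0 : (0 : ℝ) ≤ δ := by positivity
  rw [one_div, inv_mul_le_iff₀ (by positivity)]
  push_cast
  nlinarith [mul_nonneg (Nat.cast_nonneg (α := ℝ) K) hd0, Nat.cast_nonneg (α := ℝ) K]

theorem bilinear {α β γ δ : ℕ} (hdep : 1 ≤ α ∨ (1 ≤ β ∧ 1 ≤ γ))
    (hcon : α = 0 ∨ β ≠ γ ∨ α * δ + β ≠ β * β) {A : Set ℕ} (hA : 3 ≤ A.encard)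
    (h : ∀ x ∈ A, ∀ y ∈ A, α * (x * y) + β * x + γ * y + δ ∈ A) :
    ∃ η : ℝ, 0 < η ∧ Growth A η := by
  -- two different positive elements
  obtain ⟨y, hy, y', hy', hy1, hy1', hyy⟩ : ∃ y ∈ A, ∃ y' ∈ A, 1 ≤ y ∧ 1 ≤ y' ∧ y ≠ y' := by
    have h1 : 1 < (A \ {0}).encard := by
      by_contra hlt
      push Not at hlt
      have h2 : A.encard ≤ (A \ {0}).encard + ({0} : Set ℕ).encard := by
        calc A.encard ≤ ((A \ {0}) ∪ {0}).encard := Set.encard_le_encard (by
              intro z hz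
              by_cases h0 : z = 0
              · right; exact h0
              · left; exact ⟨hz, h0⟩)
          _ ≤ _ := Set.encard_union_le _ _
      rw [Set.encard_singleton] at h2
      have h3 : A.encard ≤ 1 + 1 := h2.trans (by gcongr)
      have h4 : (3 : ℕ∞) ≤ 1 + 1 := hA.trans h3
      have h5 : ((3 : ℕ) : ℕ∞) ≤ ((2 : ℕ) : ℕ∞) := by
        have e : (1 : ℕ∞) + 1 = ((2 : ℕ) : ℕ∞) := by norm_num
        rw [← e]
        exact_mod_cast h4
      have h6 : (3 : ℕ) ≤ 2 := by exact_mod_cast h5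
      omega
    obtain ⟨y, y', hy, hy', hne⟩ := Set.one_lt_encard_iff.1 h1
    exact ⟨y, hy.1, y', hy'.1, Nat.pos_of_ne_zero hy.2, Nat.pos_of_ne_zero hy'.2, hne⟩
  have hlog : ∀ n : ℕ, 2 ≤ n → 0 < Real.log 2 / Real.log (n : ℝ) := by
    intro n hn
    apply div_pos (Real.log_pos (by norm_num))
    exact Real.log_pos (by exact_mod_cast (by omega : 1 < n))
  by_cases hadd : α = 0 ∧ β = 1 ∧ γ = 1
  · obtain ⟨rfl, rfl, rfl⟩ := hadd
    refine ⟨1, one_pos, add_closed (δ := δ) ⟨y, hy, hy1⟩ ?_⟩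
    intro x hx z hz
    simpa using h x hx z hz
  by_cases h1 : α * δ + γ ≠ β * γ
  · -- the maps `x ↦ f (x, y)` and `x ↦ f (x, y')` do not commute
    have hs1 : 1 ≤ α * y + β := by
      rcases hdep with h2 | h2
      · nlinarith
      · omega
    have hs2 : 1 ≤ α * y' + β := by
      rcases hdep with h2 | h2
      · nlinarith
      · omega
    have hne : (α * y + β) * (γ * y' + δ) + (γ * y + δ)
        ≠ (α * y' + β) * (γ * y + δ) + (γ * y' + δ) := by
      intro he
      have hz : (((y : ℤ) - y') * ((α : ℤ) * δ + γ - β * γ)) = 0 := by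
        have : (((α * y + β) * (γ * y' + δ) + (γ * y + δ) : ℕ) : ℤ)
            = (((α * y' + β) * (γ * y + δ) + (γ * y' + δ) : ℕ) : ℤ) := by rw [he]
        push_cast at this
        linarith
      rcases mul_eq_zero.1 hz with h3 | h3
      · apply hyy
        have : (y : ℤ) = y' := by linarith
        exact_mod_cast this
      · apply h1
        have : (α : ℤ) * δ + γ = β * γ := by linarith
        exact_mod_cast this
    refine ⟨_, hlog _ (slope_ge hs1 hs2 hne), two_maps hs1 hs2 hne ⟨y, hy⟩ ?_⟩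
    intro x hx
    have h3 := h x hx y hy
    have h4 := h x hx y' hy'
    constructor
    · have e : (α * y + β) * x + (γ * y + δ) = α * (x * y) + β * x + γ * y + δ := by ring
      rw [e]; exact h3
    · have e : (α * y' + β) * x + (γ * y' + δ) = α * (x * y') + β * x + γ * y' + δ := by ring
      rw [e]; exact h4
  push Not at h1
  have h2 : α * δ + β ≠ β * γ := by
    intro h2
    have hbg : β = γ := by omega
    subst hbg
    rcases hcon with h3 | h3 | h3
    · subst h3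
      have h4 : β = β * β := by omega
      rcases hdep with h5 | h5
      · omega
      · have h6 : β = 1 := by
          have h7 : β * 1 = β * β := by omega
          exact (Nat.eq_of_mul_eq_mul_left (by omega) h7).symm
        exact hadd ⟨rfl, h6, h6⟩
    · exact h3 rfl
    · exact h3 h2
  have hs1 : 1 ≤ α * y + γ := by
    rcases hdep with h2 | h2
    · nlinarith
    · omega
  have hs2 : 1 ≤ α * y' + γ := by
    rcases hdep with h2 | h2
    · nlinarith
    · omega
  have hne : (α * y + γ) * (β * y' + δ) + (β * y + δ)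
      ≠ (α * y' + γ) * (β * y + δ) + (β * y' + δ) := by
    intro he
    have hz : (((y : ℤ) - y') * ((α : ℤ) * δ + β - β * γ)) = 0 := by
      have : (((α * y + γ) * (β * y' + δ) + (β * y + δ) : ℕ) : ℤ)
          = (((α * y' + γ) * (β * y + δ) + (β * y' + δ) : ℕ) : ℤ) := by rw [he]
      push_cast at this
      linarith
    rcases mul_eq_zero.1 hz with h3 | h3
    · apply hyy
      have : (y : ℤ) = y' := by linarith
      exact_mod_cast this
    · apply h2
      have : (α : ℤ) * δ + β = β * γ := by linarith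
      exact_mod_cast this
  refine ⟨_, hlog _ (slope_ge hs1 hs2 hne), two_maps hs1 hs2 hne ⟨y, hy⟩ ?_⟩
  intro x hx
  have h3 := h y hy x hx
  have h4 := h y' hy' x hx
  constructor
  · have e : (α * y + γ) * x + (β * y + δ) = α * (y * x) + β * y + γ * x + δ := by ring
    rw [e]; exact h3
  · have e : (α * y' + γ) * x + (β * y' + δ) = α * (y' * x) + β * y' + γ * x + δ := by ring
    rw [e]; exact h4

theorem pow_add_pow_unique {u : ℕ} (hu : 2 ≤ u) {i j i' j' : ℕ} (hij : i ≤ j) (hij' : i' ≤ j')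
    (h : u ^ i + u ^ j = u ^ i' + u ^ j') : i = i' ∧ j = j' := by
  have aux : ∀ {i j i' j' : ℕ}, i ≤ j → u ^ i + u ^ j = u ^ i' + u ^ j' → j' ≤ j := by
    intro i j i' j' hij h
    by_contra hlt
    push Not at hlt
    have h1 : u ^ i ≤ u ^ j := Nat.pow_le_pow_right (by omega) hij
    have h2 : u ^ (j + 1) ≤ u ^ j' := Nat.pow_le_pow_right (by omega) hlt
    have h3 : 2 * u ^ j ≤ u ^ (j + 1) := by
      rw [pow_succ]
      nlinarith [Nat.pow_pos (n := j) (by omega : 0 < u)]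
    have h4 : 0 < u ^ i' := Nat.pow_pos (by omega)
    omega
  have hj : j = j' := le_antisymm (aux hij' h.symm) (aux hij h)
  subst hj
  have h1 : u ^ i = u ^ i' := by omega
  exact ⟨Nat.pow_right_injective hu h1, rfl⟩

theorem conjugate {α β δ : ℕ} (hα : 1 ≤ α) (h : α * δ + β = β * β) :
    ∃ A : Set ℕ, A.Infinite ∧ (∀ x ∈ A, ∀ y ∈ A, α * (x * y) + β * x + β * y + δ ∈ A) ∧
      ∀ n, rep A n ≤ 2 := by
  set u : ℕ := α * 2 + β with hu
  have hu2 : 2 ≤ u := by omega
  set A : Set ℕ := {x | ∃ i : ℕ, α * x + β = u ^ i} with hA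
  have hclosed : ∀ x ∈ A, ∀ y ∈ A, α * (x * y) + β * x + β * y + δ ∈ A := by
    rintro x ⟨i, hi⟩ y ⟨j, hj⟩
    refine ⟨i + j, ?_⟩
    rw [pow_add, ← hi, ← hj]
    calc α * (α * (x * y) + β * x + β * y + δ) + β
        = α * (α * (x * y) + β * x + β * y) + (α * δ + β) := by ring
      _ = α * (α * (x * y) + β * x + β * y) + β * β := by rw [h]
      _ = (α * x + β) * (α * y + β) := by ring
  have h2A : 2 ∈ A := ⟨1, by rw [pow_one]⟩
  refine ⟨A, ?_, hclosed, ?_⟩
  · apply Set.infinite_of_not_bddAbove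
    rintro ⟨M, hM⟩
    have hex : ∀ k : ℕ, ∃ x ∈ A, k ≤ x := by
      intro k
      induction k with
      | zero => exact ⟨2, h2A, Nat.zero_le _⟩
      | succ k ih =>
        obtain ⟨x, hx, hkx⟩ := ih
        rcases Nat.lt_or_ge k x with h3 | h3
        · exact ⟨x, hx, h3⟩
        · rcases Nat.eq_zero_or_pos k with h4 | h4
          · exact ⟨2, h2A, by omega⟩
          · refine ⟨_, hclosed x hx 2 h2A, ?_⟩
            nlinarith
    obtain ⟨x, hx, hMx⟩ := hex (M + 1)
    have := hM hx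
    omega
  · intro n
    by_contra hlt
    push Not at hlt
    have hf := rep_finite A n
    let _ := Fintype.ofFinite {p : ℕ × ℕ // p.1 ∈ A ∧ p.2 ∈ A ∧ p.1 + p.2 = n}
    rw [rep, Nat.card_eq_fintype_card, Fintype.two_lt_card_iff] at hlt
    obtain ⟨⟨⟨a, b⟩, ⟨i, hi⟩, ⟨j, hj⟩, hab⟩, ⟨⟨a', b'⟩, ⟨i', hi'⟩, ⟨j', hj'⟩, hab'⟩,
      ⟨⟨a'', b''⟩, ⟨i'', hi''⟩, ⟨j'', hj''⟩, hab''⟩, h1, h2, h3⟩ := hlt
    simp only at hi hj hab hi' hj' hab' hi'' hj'' hab''
    -- two representations with the same order of the summands are equal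
    have key : ∀ a b a' b' i j i' j' : ℕ, α * a + β = u ^ i → α * b + β = u ^ j →
        α * a' + β = u ^ i' → α * b' + β = u ^ j' → a + b = n → a' + b' = n →
        (a = a' ∧ b = b') ∨ (a = b' ∧ b = a') := by
      intro a b a' b' i j i' j' hi hj hi' hj' hab hab'
      have hs : u ^ i + u ^ j = u ^ i' + u ^ j' := by
        rw [← hi, ← hj, ← hi', ← hj']
        have : α * (a + b) = α * (a' + b') := by rw [hab, hab']
        nlinarith
      have hcancel : ∀ x y m m' : ℕ, α * x + β = u ^ m → α * y + β = u ^ m' → m = m' → x = y := by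
        intro x y m m' hx hy hmm
        subst hmm
        have : α * x = α * y := by omega
        exact Nat.eq_of_mul_eq_mul_left hα this
      rcases le_total i j with h4 | h4 <;> rcases le_total i' j' with h5 | h5
      · obtain ⟨h6, h7⟩ := pow_add_pow_unique hu2 h4 h5 hs
        exact Or.inl ⟨hcancel _ _ _ _ hi hi' h6, hcancel _ _ _ _ hj hj' h7⟩
      · obtain ⟨h6, h7⟩ := pow_add_pow_unique hu2 h4 h5 (by rw [hs, add_comm])
        exact Or.inr ⟨hcancel _ _ _ _ hi hj' h6, hcancel _ _ _ _ hj hi' h7⟩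
      · obtain ⟨h6, h7⟩ := pow_add_pow_unique hu2 h4 h5 (by rw [← hs, add_comm])
        exact Or.inr ⟨hcancel _ _ _ _ hi hj' h7, hcancel _ _ _ _ hj hi' h6⟩
      · obtain ⟨h6, h7⟩ := pow_add_pow_unique hu2 h4 h5
          (by rw [add_comm, hs, add_comm])
        exact Or.inl ⟨hcancel _ _ _ _ hi hi' h7, hcancel _ _ _ _ hj hj' h6⟩
    have k1 := key a b a' b' i j i' j' hi hj hi' hj' hab hab'
    have k2 := key a b a'' b'' i j i'' j'' hi hj hi'' hj'' hab hab''
    have h1' : ¬ (a = a' ∧ b = b') := by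
      rintro ⟨rfl, rfl⟩
      exact h1 rfl
    have h2' : ¬ (a = a'' ∧ b = b'') := by
      rintro ⟨rfl, rfl⟩
      exact h2 rfl
    have h3' : ¬ (a' = a'' ∧ b' = b'') := by
      rintro ⟨rfl, rfl⟩
      exact h3 rfl
    rcases k1 with k1 | k1
    · exact h1' k1
    · rcases k2 with k2 | k2
      · exact h2' k2
      · exact h3' ⟨k1.2.symm.trans k2.2, k1.1.symm.trans k2.1⟩

end Pool.Agent.J4H86.AF
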